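import Pool.Agent.Q33.EX.PrepA

/-!
# Geometrically abelian sections of the punctured line that are in no decomposition group

`U` is the projective line over `ℚ` minus the finite set `D` of rational numbers and the point at
infinity. The sections of the geometrically abelian quotient of the fundamental group of `U` are
given, up to conjugation, by the Kummer classes `c a ∈ lim ℚˣ / (ℚˣ) ^ n` of the functions `t - a`,
`a ∈ D`.
-/

set_option autoImplicit false

namespace Pool.Agent.Results.MP_896029_ag.AbelianSectionsOffValuations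

open Pool.Agent.Q33.EX

/-- the completed group `lim ℚˣ / (ℚˣ) ^ n`, over all `n ≥ 1`: compatible families of classes -/
abbrev Class : Type := Cls {n : ℕ | 0 < n}

/-- over the field `K` the section with the Kummer classes `c` comes from the point `x` of `U` -/
def ComesFrom {D : Finset ℚ} (c : D → Class) (K : Type) [Field K] (x : K) : Prop :=
  ∀ a : D, x ≠ ((a : ℚ) : K) ∧ IsClassOf K (c a) (x - ((a : ℚ) : K))

/-- The section with the Kummer classes `c` lies in the decomposition group of a place of `ℚ(t)`
over `ℚ` with residue field `ℚ`: of a rational number `z` (if `z` is in `D` the class at `z` is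
arbitrary), or of the point at infinity. -/
def Valuative {D : Finset ℚ} (c : D → Class) : Prop :=
  (∃ z : ℚ, ∀ a : D, (a : ℚ) ≠ z → IsClassOf ℚ (c a) (z - a)) ∨ ∀ a b : D, c a = c b

/-- Let `D` have at least two elements. Arbitrarily near to every rational number `z`, for the real
absolute value and for finitely many `p`-adic absolute values, there are uncountably many sections
that come from points over `ℝ` and over `ℚ_p` for all prime numbers `p`, but lie in no
decomposition group of a place with residue field `ℚ`. -/
theorem result (D : Finset ℚ) (hD : 2 ≤ D.card) (z : ℚ) (T : Finset ℕ) (ε : ℝ) (hε : 0 < ε) :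
    ¬ {c : D → Class |
      (∀ (p : ℕ) [Fact p.Prime], ∃ x : ℚ_[p], (p ∈ T → ‖x - (z : ℚ_[p])‖ < ε) ∧
        ComesFrom c ℚ_[p] x) ∧
      (∃ x : ℝ, |x - (z : ℝ)| < ε ∧ ComesFrom c ℝ x) ∧ ¬ Valuative c}.Countable := by
  intro h
  apply partA D hD z T ε hε
  have h1 := h.image (fun (c : D → Class) (b : ((D : Set ℚ) : Set ℚ)) => c b)
  apply h1.mono
  rintro c ⟨hc1, hc2, hc3⟩
  refine ⟨fun b => c b, ⟨?_, ?_, ?_⟩, rfl⟩
  · intro p hp
    obtain ⟨x, hx, hx2⟩ := hc1 p
    exact ⟨x, hx, fun b => hx2 b⟩
  · obtain ⟨x, hx, hx2⟩ := hc2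
    exact ⟨x, hx, fun b => hx2 b⟩
  · rintro (⟨w, hw⟩ | h2)
    · exact hc3 (Or.inl ⟨w, fun b hb => hw b hb⟩)
    · exact hc3 (Or.inr fun b b' => h2 b b')

end Pool.Agent.Results.MP_896029_ag.AbelianSectionsOffValuations
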