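import Pool.Agent.Q52.SecW.Glob

/-!
# Sections of the twists of a superelliptic curve are possible only if there are local points

Let `K` be a number field, `f ∈ K[x]` a separable polynomial of degree `m ≥ 3` and `ℓ` a prime number.
There is a finite set `S` of primes of `K` with the following property.

**Theorem.**  Let `L` be any extension field of `K`, for instance a number field or the function field
of a variety over `K`, and `a ∈ Lˣ` arbitrary.  Let `C_a` be the curve `a y^ℓ = f(x)` over `L`.  Suppose
that the fundamental group of `C_a`, or that of an open subcurve, or that of a smooth curve over `L`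
that dominates `C_a`, or the geometrically pro-`ℓ` fundamental group of `C_a`, has a section over
`G_L`.  Then `C_a` has an `E`-rational point for all `p`-adic fields `E` and all embeddings of `L` in
`E`, where `E` is the completion of a number field `M ⊇ K` at any finite place that is not above `S`.

So if `L` is a number field, the valuative form of the section conjecture for `C_a` over `L` predicts
a rational point, and we prove that there are points over the completions `L_w` for all places `w` of
`L` that are not above `S`; in other words, the function field of `C_a` over `L_w` has a valuation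
over `L_w` with residue field `L_w`.  The finite set `S` depends only on `K`, `f` and `ℓ`; it does not
depend on the extension `L` or on the twist `a`.  (For one curve `X` over `L` there are points over
`L_w` for almost all `w` anyway, by Weil's theorem; the places of bad reduction that divide `a` are
the interesting ones here.  For sections of the absolute Galois group of the function field the
theorem of Koenigsmann gives points over all completions; for fundamental groups of curves this is an
open problem, the local section conjecture.)

If `L` is a function field of a variety `V` over `K` and `a ∈ L`, the theorem says for a curve `C_a`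
with a section over `L` that the fibre of the family at each sufficiently general point `P ∈ V(E)`,
that is the curve `a(P) y^ℓ = f(x)` over `E`, has an `E`-rational point, for all `E` as above.

The fundamental group is described through valuations.  Let `U` be a smooth geometrically connected
curve over `k` with function field `F`, let `Ω` be an algebraic closure of `F`, and let `F_U` be the
maximal extension of `F` inside `Ω` which is unramified over the closed points of `U`, that is, over
their local rings, which are valuation rings of `F`.  Then `π₁(U) = Gal(F_U/F)`, and the map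
`π₁(U) → G_k` is the restriction of automorphisms to the algebraic closure of `k` in `Ω`.

Proof.  `S` contains the primes at which `f` has bad reduction, those above `ℓ` and those of small
norm.  Let `L → E` be an embedding, and suppose that `C_a` has no point over `E`.  Then `ℓ` divides `m`
(otherwise there is a rational point at infinity), the reduction of `f` has no root in the residue
field of `E`, and the valuation of `a` in `E` is not divisible by `ℓ`: otherwise one can replace `a` by
a unit of `E`, and the curve has points over the residue field by Stepanov's method, which can be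
lifted.  So the local theorem for superelliptic curves (helper157, helper141), for the discrete
valuation of `L` induced by the one of `E`, shows that there are no sections over `L`.
-/

open Polynomial NumberField IsDedekindDomain

namespace Pool.Agent.Results.MP_896029_ag.LocalPoints

section definitions

variable (ℓ : ℕ) (k F Ω : Type) [Field k] [Field F] [Field Ω] [Algebra k F] [Algebra F Ω]
  [Algebra k Ω]

/-- The inertia group of the valuation ring `W` of `Ω`, as a subgroup of `Gal(Ω/F)`: the
automorphisms of `Ω` over `F` that map `W` onto itself and act as the identity on its residue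
field. -/
noncomputable def inertia (W : ValuationSubring Ω) : Subgroup (Ω ≃ₐ[F] Ω) :=
  (W.inertiaSubgroup F).map (W.decompositionSubgroup F).subtype

/-- `F_U`, for a set `U` of valuation rings of `F`: the elements of `Ω` fixed by the inertia groups
of all valuation rings `W` of `Ω` with `W ∩ F ∈ U`.  If `Ω` is an algebraic closure of a field `F`
of characteristic zero, this is the maximal extension of `F` in `Ω` unramified over `U`. -/
noncomputable def unramified (U : Set (ValuationSubring F)) : IntermediateField F Ω :=
  ⨅ W : {W : ValuationSubring Ω // W.comap (algebraMap F Ω) ∈ U},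
    IntermediateField.fixedField (inertia F Ω W.1)

/-- `k̄ F`, the compositum of `F` and of the algebraic closure of `k` in `Ω`. -/
noncomputable def geomField : IntermediateField F Ω :=
  IntermediateField.adjoin F (algebraicClosure k Ω : Set Ω)

/-- The algebraic extension `L` of `K` in `Ω` is unramified at all valuation rings of `Ω` that
contain `k`: every nonzero element of `L` has the same valuation as an element of `K`.  (If `K` is
a function field of one variable over the algebraic closure of `k` and `k` has characteristic zero,
then this says that `L/K` is unramified over all points of the smooth projective curve.) -/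
def Unramified {k K Ω : Type} [Field k] [Field K] [Field Ω] [Algebra k Ω] [Algebra K Ω]
    (L : IntermediateField K Ω) : Prop :=
  ∀ W : ValuationSubring Ω, (∀ c : k, algebraMap k Ω c ∈ W) → ∀ z ∈ L, z ≠ 0 →
    ∃ t : K, t ≠ 0 ∧ z / algebraMap K Ω t ∈ W ∧ (z / algebraMap K Ω t)⁻¹ ∈ W

/-- `L/K` is a finite Galois extension whose degree is a power of `ℓ`. -/
def FiniteProEll (ℓ : ℕ) {K Ω : Type} [Field K] [Field Ω] [Algebra K Ω]
    (L : IntermediateField K Ω) : Prop :=
  FiniteDimensional K L ∧ IsGalois K L ∧ ∃ m : ℕ, Module.finrank K L = ℓ ^ m

/-- The maximal unramified pro-`ℓ` extension of `K` in `Ω`: the compositum of the finite Galois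
extensions of `K` whose degree is a power of `ℓ` and which are unramified. -/
noncomputable def maxProEll (ℓ : ℕ) (k K Ω : Type) [Field k] [Field K] [Field Ω] [Algebra k Ω]
    [Algebra K Ω] : IntermediateField K Ω :=
  ⨆ L : {L : IntermediateField K Ω // FiniteProEll ℓ L ∧ Unramified (k := k) L}, L.1

/-- `M`, the maximal unramified pro-`ℓ` extension of `k̄ F` in `Ω`, as an extension of `F`. -/
noncomputable def proEllField : IntermediateField F Ω :=
  (maxProEll ℓ k (geomField k F Ω) Ω).restrictScalars F

/-- The map `τ : M → M` acts as `σ : K → K` on the elements that the fields `K` and `M` have in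
common when they are regarded as subfields of `Ω` through `i` and `j`. -/
def ActsAs {K M Ω : Type} [Field K] [Field M] [Field Ω] (i : K →+* Ω) (j : M →+* Ω) (σ : K → K)
    (τ : M → M) : Prop :=
  ∀ c z, j z = i c → j (τ z) = i (σ c)

/-- Let `k ⊆ K ⊆ Ω` and `F ⊆ N ⊆ Ω` be fields.  A splitting of `Gal(N/F) → Gal(K/k)`: a continuous
homomorphism `s` from `Gal(K/k)` to `Gal(N/F)` such that `s(σ)` acts as `σ` on the elements of
`K ∩ N`. -/
structure Splitting (K N : Type) [Field K] [Field N] [Algebra k K] [Algebra F N] [Algebra K Ω]
    [Algebra N Ω] where
  /-- the homomorphism `Gal(K/k) → Gal(N/F)` -/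
  toHom : (K ≃ₐ[k] K) →* (N ≃ₐ[F] N)
  cont : Continuous toHom
  compat : ∀ σ : K ≃ₐ[k] K, ActsAs (algebraMap K Ω) (algebraMap N Ω) σ (toHom σ)

/-- There are no sections of `Gal(N/F) → G_k`, where `G_k = Gal(k̄/k)` and `k̄` is the algebraic
closure of `k` in `Ω`.  For `N = F_U` these are the sections of `π₁(U) → G_k`. -/
def NoSplitting (N : IntermediateField F Ω) : Prop :=
  IsEmpty (Splitting k F Ω (algebraicClosure k Ω) N)

end definitions

section curves

variable {k : Type} [Field k]

/-- The smooth projective curve with the affine equation `a yⁿ = f(x)` has a point over `k`: in the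
affine part or at infinity. -/
def HasPoint (n : ℕ) (a : k) (f : k[X]) : Prop :=
  (∃ x y : k, a * y ^ n = f.eval x) ∨ ∃ r : k, a * r ^ Nat.gcd n f.natDegree = f.leadingCoeff

/-- Let `F` be any field over `k` that contains a point `(x, y)` of the curve `a yⁿ = f(x)`, for
instance the function field of the curve, and let `Ω` be an algebraic closure of `F`.  Then for
every set `U` of valuation rings of `F` over `k` there is no section of `π₁(U) → G_k`.  If `F` is the
function field of the curve, such `U` are given by the smooth projective curve and by all its open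
subcurves. -/
def NoSection (n : ℕ) (a : k) (f : k[X]) : Prop :=
  ∀ (F Ω : Type) [Field F] [Field Ω] [Algebra k F] [Algebra F Ω] [Algebra k Ω]
    [IsScalarTower k F Ω] [IsAlgClosure F Ω] (x y : F) (U : Set (ValuationSubring F)),
    algebraMap k F a * y ^ n = aeval x f → (∀ O ∈ U, ∀ c : k, algebraMap k F c ∈ O) →
      NoSplitting k F Ω (unramified F Ω U)

/-- Let `F = k(x, y)` be the function field of the curve `a y^ℓ = f(x)`, let `Ω` be an algebraic
closure of `F`, and let `M` be the maximal unramified pro-`ℓ` extension of `k̄ F`.  For all
extensions `N ⊇ M` of `F` in `Ω`, in particular for `N = M`, there is no section of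
`Gal(N/F) → G_k`. -/
def NoProEllSection (ℓ : ℕ) (a : k) (f : k[X]) : Prop :=
  ∀ (F Ω : Type) [Field F] [Field Ω] [Algebra k F] [Algebra F Ω] [Algebra k Ω]
    [IsScalarTower k F Ω] [IsAlgClosure F Ω] (x y : F), Transcendental k x →
    algebraMap k F a * y ^ ℓ = aeval x f →
    IntermediateField.adjoin k {x, y} = (⊤ : IntermediateField k F) →
    ∀ N : IntermediateField F Ω, proEllField ℓ k F Ω ≤ N → NoSplitting k F Ω N

end curves

lemma iSup_congr_prop {α : Type} [CompleteLattice α] {P Q : α → Prop} (h : ∀ L, P L ↔ Q L) :
    (⨆ L : {L // P L}, L.1) = ⨆ L : {L // Q L}, L.1 := by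
  have h1 : P = Q := funext fun L => propext (h L)
  subst h1
  rfl

lemma proEll_eq (ℓ : ℕ) (k F Ω : Type) [Field k] [Field F] [Field Ω] [Algebra k F] [Algebra F Ω]
    [Algebra k Ω] : proEllField ℓ k F Ω = Pool.Agent.Y157.PS.geomPro ℓ k F Ω := by
  unfold proEllField Pool.Agent.Y157.PS.geomPro maxProEll Pool.Agent.Y157.PS.maxPro
  congr 1
  refine iSup_congr_prop fun L => ?_
  constructor
  · rintro ⟨⟨h1, h2, h3⟩, h4⟩
    refine ⟨⟨h1, h2, h3⟩, fun W hW z hz hz0 => ?_⟩
    obtain ⟨t, ht, h5, h6⟩ := h4 W hW z hz hz0
    exact ⟨t, ht, div_ne_zero hz0 ((_root_.map_ne_zero _).2 ht), h5, h6⟩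
  · rintro ⟨⟨h1, h2, h3⟩, h4⟩
    refine ⟨⟨h1, h2, h3⟩, fun W hW z hz hz0 => ?_⟩
    obtain ⟨t, ht, -, h5, h6⟩ := h4 W hW z hz hz0
    exact ⟨t, ht, h5, h6⟩

lemma of_fine {k : Type} [Field k] (l : ℕ) (a : k) (f : k[X])
    (h : Pool.Agent.Y157.PS.FineP l a f) (n : ℕ) (hn : l ∣ n) : NoSection n a f := by
  obtain ⟨-, h1, -, -⟩ := h
  obtain ⟨n', rfl⟩ := hn
  intro F Ω _ _ _ _ _ _ _ x y U hxy hU
  have hcl : IsAlgClosed Ω := IsAlgClosure.isAlgClosed F
  have halg : Algebra.IsAlgebraic F Ω := IsAlgClosure.isAlgebraic
  have h4 := h1 F Ω U hU x (y ^ n') (by rw [← hxy, ← pow_mul, mul_comm n' l])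
  exact ⟨fun s => h4.false ⟨s.toHom, s.cont, s.compat⟩⟩

/-- Let `K` be a number field, `f ∈ K[x]` separable of degree at least 3 and `ℓ` a prime number.
There is a finite set `S` of primes of `K` such that the following holds for all extension fields `L`
of `K`, all `a ∈ L`, `a ≠ 0`, all number fields `M` that contain `K`, all finite places `w` of `M` not
above `S` and all embeddings `ψ` of `L` over `K` in the completion `M_w`.  If the curve
`ψ(a) y^ℓ = f(x)` has no point over `M_w`, then over `L` the fundamental groups of the open subcurves
of the curve `a y^ℓ = f(x)`, and of all smooth curves that dominate it, for instance the curves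
`a yⁿ = f(x)` with `n` divisible by `ℓ`, and the geometrically pro-`ℓ` fundamental group of the curve
`a y^ℓ = f(x)` have no sections. -/
theorem result (K : Type) [Field K] [NumberField K] (f : K[X]) (hf : f.Separable)
    (h3 : 3 ≤ f.natDegree) (ℓ : ℕ) (hℓ : ℓ.Prime) :
    ∃ S : Set (HeightOneSpectrum (𝓞 K)), S.Finite ∧
      ∀ (L : Type) [Field L] [Algebra K L] (a : L), a ≠ 0 →
      ∀ (M : Type) [Field M] [NumberField M] [Algebra K M] (w : HeightOneSpectrum (𝓞 M))
        (ψ : L →+* w.adicCompletion M),
        (∀ x : K, ψ (algebraMap K L x) = algebraMap M (w.adicCompletion M) (algebraMap K M x)) →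
        (∀ v ∈ S, ¬ w.asIdeal.LiesOver v.asIdeal) →
        ¬ HasPoint ℓ (ψ a) ((f.map (algebraMap K L)).map ψ) →
        (∀ n : ℕ, ℓ ∣ n → NoSection n a (f.map (algebraMap K L))) ∧
          NoProEllSection ℓ a (f.map (algebraMap K L)) := by
  obtain ⟨S, hS, hglob⟩ := Pool.Agent.Q52.SecW.glob f hf h3 ℓ hℓ
  refine ⟨S, hS, ?_⟩
  intro L _ _ a ha M _ _ _ w ψ hψ hw hno
  have hdeg : ((f.map (algebraMap K L)).map ψ).natDegree = f.natDegree := by
    rw [natDegree_map, natDegree_map]
  rcases hglob L a ha M w ψ hψ hw with h | ⟨-, h⟩
  · exfalso
    apply hno
    rcases h with h | h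
    · exact Or.inl h
    · refine Or.inr ?_
      rw [hdeg]
      exact h
  · refine ⟨fun n hn => of_fine ℓ _ _ h n hn, ?_⟩
    intro F Ω _ _ _ _ _ _ _ x y hx hxy hF N hN
    have hcl : IsAlgClosed Ω := IsAlgClosure.isAlgClosed F
    have halg : Algebra.IsAlgebraic F Ω := IsAlgClosure.isAlgebraic
    rw [proEll_eq] at hN
    exact ⟨fun s => h.1 F Ω x y hx hxy hF N hN s.toHom s.cont s.compat⟩

end Pool.Agent.Results.MP_896029_ag.LocalPoints
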