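import Pool.Agent.Q138.PS.TT
import Pool.Agent.Results.MP_896029_ag.SectionsNearBranchPoint
import Pool.Agent.Results.MP_896029_ag.BranchPoints
import Pool.Agent.Results.MP_896029_ag.LiftableSectionsOfTwists

/-!
# Sections of the fundamental groups of the twists by the integers `± ⌊α P(n)⌋`

Let `q ≥ 2`. Outside a set of real numbers of Hausdorff dimension at most `q / (q + 1 / (q 2 ^ (q - 1)))` (that is
`8 / 9` for `q = 2`) every `α > 0` has the following property, for ALL integral polynomials `P` of degree `q` with positive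
leading coefficient and coefficients of size at most `N ^ η`. Let `d` be the squarefree part of `± ⌊α P(n)⌋`.
(1) For all but `O (N / (log N) ^ δ)` of the `n ≤ N` all sections of the fundamental group of `d y² = ∏ k, f k (x)` (and of
its open subcurves and coverings) have modulo 2 the type of one and the same rational branch point.
(2) For all but `O (N / (log N) ^ (1 / 5))` of the `n ≤ N` every section for `d y² = ∏ (x - e i)` is attached modulo 2 to
exactly one branch point, and, if suitable elliptic quotients have rank zero, every liftable section is valuative.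
-/

set_option autoImplicit false

universe v w

open Finset Filter Topology MeasureTheory Polynomial
open Pool.Agent.Q138.PS

namespace Pool.Agent.Results.MP_896029_ag.SectionsAlongRealMultiples

open Pool.Agent.Results.MP_896029_ag.SectionsNearBranchPoint (Factors General Ln OtherSection)
open Pool.Agent.Results.MP_896029_ag.BranchPoints (SectionsAttached CrossRatio)
open Pool.Agent.Results.MP_896029_ag.LiftableSectionsOfTwists (FourPoints LiftableSectionsAreValuative)

open Classical in
/-- the number of the pairs of an integer `1 ≤ n ≤ N` and a sign `s` for which `s ⌊α P(n)⌋ = d m²` with a squarefree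
number `d` which has the property `Z` -/
noncomputable def count (α : ℝ) (P : ℤ[X]) (N : ℕ) (Z : ℤ → Prop) : ℕ :=
  ((Icc 1 N ×ˢ ({1, -1} : Finset ℤ)).filter fun x : ℕ × ℤ =>
    ∃ (d : ℤ) (m : ℕ), Squarefree d ∧ 1 ≤ m ∧ d * (m : ℤ) ^ 2 = x.2 * (⌊α * ((P.eval (x.1 : ℤ) : ℤ) : ℝ)⌋₊ : ℤ) ∧
      Z d).card

/-- the squarefree part of `± ⌊α P(n)⌋` has the property `Z` for at most `C N / (log N) ^ δ` of the `n ≤ N`, uniformly
in the polynomials `P` of degree `q` with positive leading coefficient and coefficients of size at most `N ^ η` -/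
def Few (q : ℕ) (α δ : ℝ) (Z : ℤ → Prop) : Prop :=
  ∃ η C : ℝ, 0 < η ∧ ∀ᶠ N : ℕ in atTop, ∀ P : ℤ[X], P.natDegree = q → 0 < P.leadingCoeff →
    (∀ j, |((P.coeff j : ℤ) : ℝ)| ≤ (N : ℝ) ^ η) → (count α P N Z : ℝ) ≤ C * N * (Real.log N) ^ (-δ)

theorem countable_pol : Countable ℤ[X] :=
  Cardinal.mk_le_aleph0_iff.1 (by
    refine (Polynomial.cardinalMk_le_max (R := ℤ)).trans ?_
    simp)

/-- **Theorem.** Let `q ≥ 2`. There is a set `E` of Hausdorff dimension at most `q / (q + 1 / (q 2 ^ (q - 1)))` such that for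
each `α > 0` outside `E`:
(1) for all polynomials `f k ∈ ℤ[x]`, irreducible over `ℚ`, pairwise non-associated, of even total degree, at least four of
odd degree and at least one linear, the linear factors in general position, some section for the twist
`d y² = ∏ k, f k (x)` does not have the type of the zero of a linear factor only for `O (N / (log N) ^ δ)` pairs `(n, ±)`,
`n ≤ N`, `d` the squarefree part of `± ⌊α P(n)⌋`, uniformly in `P`;
(2) for an even number `≥ 6` of different integers `e i` with `CrossRatio`, the sections for `d y² = ∏ (x - e i)` are attached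
modulo 2 to exactly one branch point for all but `O (N / (log N) ^ (1 / 5))` pairs, and, with `FourPoints`, its liftable
sections are valuative. -/
theorem result (q : ℕ) (hq : 2 ≤ q) :
    ∃ E : Set ℝ, dimH E ≤ ENNReal.ofReal ((q : ℝ) / (q + 1 / (q * 2 ^ (q - 1)))) ∧ ∀ α : ℝ, 0 < α → α ∉ E →
      ∀ k : ℕ,
      (∀ f : Fin k → ℤ[X], Factors f → General f → (Ln f).Nonempty →
        ∃ δ : ℝ, 0 < δ ∧ Few q α δ (fun d => OtherSection.{v, w} f d)) ∧
      (∀ e : Fin k → ℤ, Function.Injective e → Even k → 6 ≤ k → CrossRatio e →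
        Few q α (1 / 5) (fun d => ¬ SectionsAttached.{0, v, w} (fun i => (e i : ℚ)) (d : ℚ)) ∧
        (FourPoints e → Few q α (1 / 5) (fun d => ¬ LiftableSectionsAreValuative e d))) := by
  classical
  have := countable_pol
  obtain ⟨E1, hdim1, hT1⟩ := exc_sqf (ι := Σ k : ℕ, (Fin k → ℤ[X])) q hq
    (fun i d => OtherSection.{v, w} i.2 d)
  obtain ⟨E2, hdim2, hT2⟩ := exc_sqf (ι := Σ k : ℕ, (Fin k → ℤ)) q hq
    (fun i d => ¬ SectionsAttached.{0, v, w} (fun j => (i.2 j : ℚ)) (d : ℚ))
  obtain ⟨E3, hdim3, hT3⟩ := exc_sqf (ι := Σ k : ℕ, (Fin k → ℤ)) q hq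
    (fun i d => ¬ LiftableSectionsAreValuative i.2 d)
  refine ⟨E1 ∪ (E2 ∪ E3), ?_, fun α hα hαE k => ⟨fun f hF hG hL => ?_, fun e he hev hk hCR => ⟨?_, fun hE => ?_⟩⟩⟩
  · rw [dimH_union, dimH_union]
    exact max_le hdim1 (max_le hdim2 hdim3)
  · obtain ⟨δ, hδ, C, hC⟩ := MP_896029_ag.SectionsNearBranchPoint.result.{v, w} (Fin k) f hF hG hL
    obtain ⟨η, hη, h1⟩ := hT1 α hα (fun h => hαE (Or.inl h)) ⟨k, f⟩
    obtain ⟨C', hC'⟩ := h1 δ C hδ hC
    exact ⟨δ, hδ, η, C', hη, hC'⟩
  · obtain ⟨C, hC⟩ := MP_896029_ag.BranchPoints.result.{v, w}.1 (Fin k) e he (by simpa using hev)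
      (by simpa using hk) hCR
    obtain ⟨η, hη, h1⟩ := hT2 α hα (fun h => hαE (Or.inr (Or.inl h))) ⟨k, e⟩
    obtain ⟨C', hC'⟩ := h1 (1 / 5) C (by norm_num) (fun Y hY => hC Y (by omega))
    exact ⟨η, C', hη, hC'⟩
  · obtain ⟨C, hC⟩ := MP_896029_ag.LiftableSectionsOfTwists.result (Fin k) e he (by simpa using hev)
      (by simpa using hk) hCR hE
    obtain ⟨η, hη, h1⟩ := hT3 α hα (fun h => hαE (Or.inr (Or.inr h))) ⟨k, e⟩
    obtain ⟨C', hC'⟩ := h1 (1 / 5) C (by norm_num) (fun Y hY => hC Y (by omega))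
    exact ⟨η, C', hη, hC'⟩

end Pool.Agent.Results.MP_896029_ag.SectionsAlongRealMultiples
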