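import Pool.Agent.Q51.SY.Fin

/-!
# Sections of 100 percent of the everywhere locally soluble superelliptic twists

Let `f ∈ ℤ[x]` be irreducible over `ℚ`, of degree `n`, let `F(x, w)` be its homogenisation, `m ≥ 3` a divisor of `n`
and `C_D : D y ^ m = F(x, w)` the twists of the superelliptic curve `y ^ m = f(x)`, smooth projective curves in the
weighted projective plane of weights `(1, 1, n/m)`, of genus `(m - 1)(n - 2)/2`; the genus is at least `2` unless
`n = m = 3`.

**Theorem.** Let `m` be even and `n ≥ 6`, or let `m` have an odd prime factor `q` such that any two different complex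
zeros of `f` generate a field containing the `q`-th roots of unity.  Then for 100 percent of the everywhere locally
soluble curves `C_D` with squarefree `D` (all but `C (log X)^(-δ) E(X)`, if `E(X)` is the number of them with
`|D| ≤ X`) the following holds:

* `C_D(ℚ)` is empty;
* the fundamental groups of `C_D`, of its open subcurves and of all smooth curves over `ℚ` which dominate it have no
  sections over `G_ℚ`;
* for all odd primes `q ∣ m` with the condition above the geometrically pro-`q` fundamental group of the curve
  `D y ^ q = F(x, w)` has no section.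

If some `C_D` is everywhere locally soluble, then `E(X) ≥ c X / log X * exp (∑ 1/l)` for large `X`, the sum over the
primes `l ≤ X` modulo which `f` has a zero.

So the section conjecture (in the valuative form, too: there are neither sections nor valuations with residue field
`ℚ`) holds for these curves, although they have points over all completions of `ℚ`, so that there are sections over
all completions.

The fundamental group is described through valuations.  Let `U` be a smooth geometrically connected curve over
`k` with function field `F`, let `Ω` be an algebraic closure of `F`, and let `F_U` be the maximal extension of `F`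
inside `Ω` which is unramified over the closed points of `U`, that is, over their local rings, which are
valuation rings of `F`.  Then `π₁(U) = Gal(F_U/F)`, and the map `π₁(U) → G_k` is the restriction of automorphisms to
the algebraic closure of `k` in `Ω`.

Proof.  Let `q` be a prime factor of `m`.  `C_D` maps to the curve `D y ^ q = f(x)` with the branch points `(e, 0)`,
`f(e) = 0`.  The ratios `(x - e) / (x - e')` are `q`-th powers of functions on the maximal geometrically pro-`q`
covering, and a section `s` yields for all `e, e'` a Kummer class `κ(e, e')` of the field `ℚ(e, e')`.  At the primes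
`l ∤ B D` these classes are unramified, and at the primes `l ∣ D`, `l ∤ B`, they are those of a branch point `(e, 0)`
with `e ∈ ℚ_l` (helper157's theory of pro-`ℓ` sections; for `q = 2` helper623's and helper161's).  Let `v0(l)` be the
prime of degree one of `L = ℚ(θ)`, `f(θ) = 0`, given by this `e`.  Up to finitely many types the family `κ` is given by
an integer `α` of `L` with the divisor `∏ v0(l)` outside `B` and with conjugates at most `C |D| ^ (1/n)`.  Two elements
`α, α'` of the same type with the same `v0(l)` differ by a rational integer times a `q`-th power modulo all other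
primes above `l`.  The number of such `α` is bounded by the large sieve in dimension `n`; the condition on the roots
of unity (void for `q = 2`) makes the local conditions strong enough.

The definitions `hom`, `Point`, `AdelicPoint`, `count`, `rootPrimes`, `RootsOfUnityCondition` are in
`Pool/Agent/Q51/SE/Def.lean`, `numSoluble`, `sumRootPrimes` in `Pool/Agent/Q51/SE/Pol2.lean`.

(helper51, with helper14, helper16, helper24, helper26, helper38, helper52, helper65, helper68, helper91, helper124,
helper150, helper154, helper157, helper161, helper162, helper166, helper182, helper187, helper190, helper198, helper210,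
helper239, helper241, helper247, helper251, helper277, helper285, helper623.)
-/

set_option autoImplicit false

open Polynomial

namespace Pool.Agent.Results.MP_896029_ag.SolubleSuperellipticTwists

open Pool.Agent.Q51.SE (Point AdelicPoint RootsOfUnityCondition count numSoluble sumRootPrimes)

section definitions

variable (ℓ : ℕ) (k F Ω : Type) [Field k] [Field F] [Field Ω] [Algebra k F] [Algebra F Ω]
  [Algebra k Ω]

/-- The inertia group of the valuation ring `W` of `Ω`, as a subgroup of `Gal(Ω/F)`: the
automorphisms of `Ω` over `F` that map `W` onto itself and act as the identity on its residue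
field. -/
noncomputable def inertia (W : ValuationSubring Ω) : Subgroup (Ω ≃ₐ[F] Ω) :=
  (W.inertiaSubgroup F).map (W.decompositionSubgroup F).subtype

/-- `F_U`, for a set `U` of valuation rings of `F`: the elements of `Ω` fixed by the inertia groups
of all valuation rings `W` of `Ω` with `W ∩ F ∈ U`.  If `Ω` is an algebraic closure of a field `F`
of characteristic zero, this is the maximal extension of `F` in `Ω` unramified over `U`. -/
noncomputable def unramified (U : Set (ValuationSubring F)) : IntermediateField F Ω :=
  ⨅ W : {W : ValuationSubring Ω // W.comap (algebraMap F Ω) ∈ U},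
    IntermediateField.fixedField (inertia F Ω W.1)

/-- `k̄ F`, the compositum of `F` and of the algebraic closure of `k` in `Ω`. -/
noncomputable def geomField : IntermediateField F Ω :=
  IntermediateField.adjoin F (algebraicClosure k Ω : Set Ω)

/-- The algebraic extension `L` of `K` in `Ω` is unramified at all valuation rings of `Ω` that
contain `k`: every nonzero element of `L` has the same valuation as an element of `K`.  (If `K` is
a function field of one variable over the algebraic closure of `k` and `k` has characteristic zero,
then this says that `L/K` is unramified over all points of the smooth projective curve.) -/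
def Unramified {k K Ω : Type} [Field k] [Field K] [Field Ω] [Algebra k Ω] [Algebra K Ω]
    (L : IntermediateField K Ω) : Prop :=
  ∀ W : ValuationSubring Ω, (∀ c : k, algebraMap k Ω c ∈ W) → ∀ z ∈ L, z ≠ 0 →
    ∃ t : K, t ≠ 0 ∧ z / algebraMap K Ω t ∈ W ∧ (z / algebraMap K Ω t)⁻¹ ∈ W

/-- `L/K` is a finite Galois extension whose degree is a power of `ℓ`. -/
def FiniteProEll (ℓ : ℕ) {K Ω : Type} [Field K] [Field Ω] [Algebra K Ω]
    (L : IntermediateField K Ω) : Prop :=
  FiniteDimensional K L ∧ IsGalois K L ∧ ∃ m : ℕ, Module.finrank K L = ℓ ^ m

/-- The maximal unramified pro-`ℓ` extension of `K` in `Ω`: the compositum of the finite Galois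
extensions of `K` whose degree is a power of `ℓ` and which are unramified. -/
noncomputable def maxProEll (ℓ : ℕ) (k K Ω : Type) [Field k] [Field K] [Field Ω] [Algebra k Ω]
    [Algebra K Ω] : IntermediateField K Ω :=
  ⨆ L : {L : IntermediateField K Ω // FiniteProEll ℓ L ∧ Unramified (k := k) L}, L.1

/-- `M`, the maximal unramified pro-`ℓ` extension of `k̄ F` in `Ω`, as an extension of `F`. -/
noncomputable def proEllField : IntermediateField F Ω :=
  (maxProEll ℓ k (geomField k F Ω) Ω).restrictScalars F

/-- The map `τ : M → M` acts as `σ : K → K` on the elements that the fields `K` and `M` have in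
common when they are regarded as subfields of `Ω` through `i` and `j`. -/
def ActsAs {K M Ω : Type} [Field K] [Field M] [Field Ω] (i : K →+* Ω) (j : M →+* Ω) (σ : K → K)
    (τ : M → M) : Prop :=
  ∀ c z, j z = i c → j (τ z) = i (σ c)

/-- Let `k ⊆ K ⊆ Ω` and `F ⊆ N ⊆ Ω` be fields.  A splitting of `Gal(N/F) → Gal(K/k)`: a continuous
homomorphism `s` from `Gal(K/k)` to `Gal(N/F)` such that `s(σ)` acts as `σ` on the elements of
`K ∩ N`. -/
structure Splitting (K N : Type) [Field K] [Field N] [Algebra k K] [Algebra F N] [Algebra K Ω]
    [Algebra N Ω] where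
  /-- the homomorphism `Gal(K/k) → Gal(N/F)` -/
  toHom : (K ≃ₐ[k] K) →* (N ≃ₐ[F] N)
  cont : Continuous toHom
  compat : ∀ σ : K ≃ₐ[k] K, ActsAs (algebraMap K Ω) (algebraMap N Ω) σ (toHom σ)

/-- There are no sections of `Gal(N/F) → G_k`, where `G_k = Gal(k̄/k)` and `k̄` is the algebraic
closure of `k` in `Ω`.  For `N = F_U` these are the sections of `π₁(U) → G_k`. -/
def NoSplitting (N : IntermediateField F Ω) : Prop :=
  IsEmpty (Splitting k F Ω (algebraicClosure k Ω) N)

end definitions

section curves

/-- Let `F` be any field over `K` that contains a point `(x, y)` of the affine curve `D y ^ m = f(x)`, for instance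
the function field over `K` of `C_D`, and let `Ω` be an algebraic closure of `F`.  Then for every set `U` of valuation
rings of `F` over `K` there is no section of `π₁(U) → G_K`.  If `F` is the function field of the curve, such `U` are
given by `C_D` and by all its open subcurves. -/
def NoSection (f : ℤ[X]) (m : ℕ) (D : ℤ) (K : Type) [Field K] : Prop :=
  ∀ (F Ω : Type) [Field F] [Field Ω] [Algebra K F] [Algebra F Ω] [Algebra K Ω]
    [IsScalarTower K F Ω] [IsAlgClosure F Ω] (x y : F) (U : Set (ValuationSubring F)),
    (D : F) * y ^ m = aeval x f → (∀ O ∈ U, ∀ c : K, algebraMap K F c ∈ O) →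
      NoSplitting K F Ω (unramified F Ω U)

/-- Let `F = K(x, y)` be the function field over `K` of the curve `D y ^ q = f(x)`, let `Ω` be an algebraic closure
of `F`, and let `M` be the maximal unramified pro-`q` extension of `K̄ F`.  For all extensions `N ⊇ M` of `F` in `Ω`, in
particular for `N = M`, there is no section of `Gal(N/F) → G_K`. -/
def NoProEllSection (f : ℤ[X]) (q : ℕ) (D : ℤ) (K : Type) [Field K] : Prop :=
  ∀ (F Ω : Type) [Field F] [Field Ω] [Algebra K F] [Algebra F Ω] [Algebra K Ω]
    [IsScalarTower K F Ω] [IsAlgClosure F Ω] (x y : F), Transcendental K x →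
    (D : F) * y ^ q = aeval x f →
    IntermediateField.adjoin K {x, y} = (⊤ : IntermediateField K F) →
    ∀ N : IntermediateField F Ω, proEllField q K F Ω ≤ N → NoSplitting K F Ω N

/-- The integers `D` which do not have the following property: `C_D` has no rational point, the fundamental groups
over `ℚ` of the open subcurves of `C_D` and of the smooth curves that dominate it have no sections, and, for all odd
primes `q ∣ m` such that `f` satisfies the condition on the `q`-th roots of unity, the geometrically pro-`q`
fundamental group of the curve `D y ^ q = f(x)` has no section. -/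
def Exceptional (f : ℤ[X]) (m : ℕ) (D : ℤ) : Prop :=
  ¬ (IsEmpty (Point f m D ℚ) ∧ NoSection f m D ℚ ∧ ∀ q : ℕ, q.Prime → q ≠ 2 → q ∣ m →
    RootsOfUnityCondition f q → NoProEllSection f q D ℚ)

/-- The number of the squarefree `D` with `|D| ≤ X` for which `C_D` is everywhere locally soluble, but `D` is
exceptional. -/
noncomputable def numExceptional (f : ℤ[X]) (m : ℕ) (X : ℝ) : ℝ :=
  count (fun D => Nonempty (AdelicPoint f m D) ∧ Exceptional f m D) X

end curves

lemma iSup_congr_prop {α : Type} [CompleteLattice α] {P Q : α → Prop} (h : ∀ L, P L ↔ Q L) :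
    (⨆ L : {L // P L}, L.1) = ⨆ L : {L // Q L}, L.1 := by
  have h1 : P = Q := funext fun L => propext (h L)
  subst h1
  rfl

lemma proEll_eq (ℓ : ℕ) (k F Ω : Type) [Field k] [Field F] [Field Ω] [Algebra k F] [Algebra F Ω]
    [Algebra k Ω] : proEllField ℓ k F Ω = Pool.Agent.Y157.PS.geomPro ℓ k F Ω := by
  unfold proEllField Pool.Agent.Y157.PS.geomPro maxProEll Pool.Agent.Y157.PS.maxPro
  congr 1
  refine iSup_congr_prop fun L => ?_
  constructor
  · rintro ⟨⟨h1, h2, h3⟩, h4⟩
    refine ⟨⟨h1, h2, h3⟩, fun W hW z hz hz0 => ?_⟩
    obtain ⟨t, ht, h5, h6⟩ := h4 W hW z hz hz0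
    exact ⟨t, ht, div_ne_zero hz0 ((_root_.map_ne_zero _).2 ht), h5, h6⟩
  · rintro ⟨⟨h1, h2, h3⟩, h4⟩
    refine ⟨⟨h1, h2, h3⟩, fun W hW z hz hz0 => ?_⟩
    obtain ⟨t, ht, -, h5, h6⟩ := h4 W hW z hz hz0
    exact ⟨t, ht, h5, h6⟩

lemma noSection {f : ℤ[X]} {m : ℕ} {D : ℤ} {K : Type} [Field K]
    (h2 : ¬ Pool.Agent.Q51.SY.HasSec f m D K) : NoSection f m D K := by
  intro F Ω _ _ _ _ _ _ _ x y U hxy hU
  have hcl : IsAlgClosed Ω := IsAlgClosure.isAlgClosed F
  have halg : Algebra.IsAlgebraic F Ω := IsAlgClosure.isAlgebraic
  exact ⟨fun s => h2 ⟨F, Ω, inferInstance, inferInstance, inferInstance, inferInstance,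
    inferInstance, inferInstance, hcl, halg, U, x, y, hU, hxy, ⟨⟨s.toHom, s.cont, s.compat⟩⟩⟩⟩

lemma noPro {f : ℤ[X]} {q : ℕ} {D : ℤ} {K : Type} [Field K]
    (h3 : ¬ Pool.Agent.Q51.SY.HasPro f q D K) : NoProEllSection f q D K := by
  intro F Ω _ _ _ _ _ _ _ x y hx hxy hF N hN
  have hcl : IsAlgClosed Ω := IsAlgClosure.isAlgClosed F
  have halg : Algebra.IsAlgebraic F Ω := IsAlgClosure.isAlgebraic
  rw [proEll_eq] at hN
  exact ⟨fun s => h3 ⟨F, Ω, inferInstance, inferInstance, inferInstance, inferInstance,
    inferInstance, inferInstance, hcl, halg, x, y, N, s.toHom, hx, hxy, hF, hN, s.cont,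
    s.compat⟩⟩

/-- Let `f ∈ ℤ[X]` be irreducible over `ℚ`, of degree `n`, and let `m ≥ 3` be a divisor of `n`.  Let `m` be even and
`n ≥ 6`, or let there be an odd prime `q ∣ m` such that any two different complex zeros of `f` generate a field
containing the `q`-th roots of unity.  For 100 percent of the everywhere locally soluble curves
`C_D : D y ^ m = F(x, w)` with squarefree `D` (all but `C (log X)^(-δ) E(X)` of the `E(X)` curves with `|D| ≤ X`) there
is no rational point, and there are no sections of the fundamental groups over `ℚ` of the open subcurves of `C_D`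
and of all smooth curves which dominate it, and of the geometrically pro-`q` fundamental groups of the curves
`D y ^ q = f(x)` for all odd primes `q ∣ m` as above.  If `E` is not zero, then
`E(X) ≥ c X / log X * exp (∑ 1/l)` for large `X`, the sum over the primes `l ≤ X` modulo which `f` has a zero. -/
theorem result (f : ℤ[X]) (hf : Irreducible (f.map (Int.castRingHom ℚ))) (m : ℕ) (hm : 3 ≤ m)
    (hmn : m ∣ f.natDegree) (h : (Even m ∧ 6 ≤ f.natDegree) ∨
      ∃ q : ℕ, q.Prime ∧ q ≠ 2 ∧ q ∣ m ∧ RootsOfUnityCondition f q) :
    (∃ δ C : ℝ, 0 < δ ∧ ∀ X : ℝ, 3 ≤ X →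
      numExceptional f m X ≤ C * Real.log X ^ (-δ) * numSoluble f m X) ∧
    ((∃ D : ℤ, Squarefree D ∧ Nonempty (AdelicPoint f m D)) → ∃ c X₀ : ℝ, 0 < c ∧ ∀ X : ℝ,
      X₀ ≤ X → c * X / Real.log X * Real.exp (sumRootPrimes f X) ≤ numSoluble f m X) := by
  refine ⟨?_, fun hex => Pool.Agent.Q51.SY.lower hf (by omega) hex⟩
  obtain ⟨δ, C, hδ, -, h1⟩ := Pool.Agent.Q51.SY.main hf (m := m) (by omega) hmn h
  refine ⟨δ, C, hδ, fun X hX => le_trans ?_ (h1 X hX)⟩
  unfold numExceptional
  refine Nat.cast_le.mpr (Pool.Agent.Q51.SY.count_mono' (fun D _ hD => ⟨hD.1, ?_⟩) X)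
  by_contra hcon
  push Not at hcon
  apply hD.2
  refine ⟨hcon.1, noSection hcon.2.1, fun q hq hq2 hqm hrou => noPro ?_⟩
  exact hcon.2.2 q hq hq2 hqm hrou

end Pool.Agent.Results.MP_896029_ag.SolubleSuperellipticTwists
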